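import Pool.Agent.Helper77_PFC.CAS
import Pool.Agent.Helper86_PFC.Pen
import Pool.Agent.Helper58_PFC.RNG
import Pool.Agent.Helper49_PFD.UNG
import Pool.Agent.Helper10_PFD.Sug
import Pool.Agent.Helper76_PFD.IDG
import Pool.Agent.Helper94_PFD.PLG
import Pool.Agent.Helper17_PFD.LBG
import Pool.Agent.Helper84_PFD.STG
import Pool.Agent.Helper72_PFD.Alx
import Pool.Agent.Helper79_PFD.EXX
import Pool.Agent.Helper49_PFD.FPF
import Pool.Agent.Helper13_PFD.EQF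
import Pool.Agent.Helper65_PFD.INX
import Pool.Agent.Helper33_PFD.ING
import Pool.Agent.Helper91_PFD.FPG
import Pool.Agent.Helper91_PFD.FPX
import Pool.Agent.Helper65_PFD.LFA
import Pool.Agent.Helper30_PFD.LFB
import Pool.Agent.Helper72_PFD.HGR
import Pool.Agent.Helper33_PFD.LCU
import Pool.Agent.Helper65_PFD.CZW
import Pool.Agent.Helper17_PFD.CHF
import Pool.Agent.Helper29_PFD.SPX
import Pool.Agent.Helper24_PFD.RWF
import Pool.Agent.Helper52_PFD.XCL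
import Pool.Agent.Helper48_PFD.LAX
import Pool.Agent.Helper44_PFD.WGD
import Pool.Agent.Helper92_PFD.WGF
import Pool.Agent.Helper13_PFD.BWF
import Pool.Agent.Helper20_PFD.LAT
import Pool.Agent.Helper15_PFD.RFL
import Pool.Agent.Helper30_PFD.UNM
import Pool.Agent.Helper91_PFD.RTC
import Pool.Agent.Helper33_PFD.FRM
import Pool.Agent.Helper92_PFD.ULF
import Pool.Agent.Helper52_PFD.ORT
import Pool.Agent.Helper81_PFD.KLT
import Pool.Agent.Helper80_PFD.ZON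
import Pool.Agent.Helper68_PFD.CNR
import Pool.Agent.Helper35_PFD.BFS
import Pool.Agent.Helper41_PFD.BSP
import Pool.Agent.Helper24_PFD.BRF
import Pool.Agent.Helper13_PFD.BDV
import Pool.Agent.Helper90_PFD.KBC
import Pool.Agent.Helper68_PFD.CRS
import Pool.Agent.PFD.D4h46.TTR
import Pool.Agent.Helper89_PFD.HSV
import Pool.Agent.Helper41_PFD.TFS
import Pool.Agent.Helper20_PFD.IDM
import Pool.Agent.Helper48_PFD.ZPN
import Pool.Agent.Helper3_PFD.ZET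
import Pool.Agent.Helper19_PFD.MEQ
import Pool.Agent.PFD.D1.Final

/-!
# Squad PFD, blocks D2a, D2b, D4 assembled (helper36): `LatStmt` and `MeqStmt` without hypotheses
-/

namespace Pool.Agent.PFD.H36

theorem cas : Pool.Agent.PFC.B1.CasStmt := Pool.Agent.PFC.H77.cas

/-- D2a -/
theorem exx : D2.ExxStmt :=
  D2.H79.exx (D2.H94.plg (D2.H76.idg D2.H10.sug)) D2.H17.lbg
    (D2.H72.alx D2.H10.sug Pool.Agent.Helper86_PFC.pen (D2.H84.stg Pool.Agent.Helper86_PFC.pen))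
    Pool.Agent.PFC.B1.H58.rng

theorem fpx : D2b.FpxStmt := D2b.H91.fpx D2b.H49.fpf D2b.H91.fpg

theorem lfx : D2b.LfxStmt :=
  D2b.H49.lfx fpx (D2b.H65.lfa D2b.H13.eqf D2b.H33.ing D2b.H33.inm)
    (D2b.H30.lfb D2b.H13.eqf D2b.H33.ing D2b.H49.inb D2b.H91.fpg)

/-- D2b: the lift `A1` -/
theorem lat : D2b.LatStmt :=
  D2b.H20.lat Pool.Agent.Helper13_PFD.bwf D2b.H24.rwf D2b.H65.inx D2b.H44.wgd H92.wgf
    D2b.H33.lcu (D2b.H17.chf D2b.H65.czw) (D2b.H29.spx D2b.H33.inm cas) lfx exx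
    (D2b.H48.lax (D2b.H72.hgr D2b.H33.ing) (H52.xcl D2b.H13.eqf fpx))

theorem lrx : D4.LrxStmt :=
  D4.H81.lrx (D4.H15.rfl_ D2.H49.ung) (D4.H30.unm D2.H49.ung) (H92.ulf D2b.H33.lcu D2b.H24.rwf)
    (D4.H33.frm D4.H91.rtc) (H52.ort D2b.H33.lcu D2b.H24.rwf (D4.H30.unm D2.H49.ung))

theorem klt : D4.KltStmt :=
  D4.H81.klt
    (D4.H3.zet (D4.H68.crs cas) (D4.H46.ttr cas)
      (D4.H48.zpn D4.H20.idm D4.H41.tfs (D4.H46.ttr cas) D4.H89.hsv D4.H91.rtc) D4.H91.rtc)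
    H78.fot

theorem kbc : D4.KbcStmt :=
  D4.H90.kbc D4.H35.bfs D4.H41.bsp D4.H24.brf Pool.Agent.Helper13_PFD.bdv

/-- D4: TOP -/
theorem meq : D4.MeqStmt :=
  D4.H19.meq lat lrx (D4.H80.zon D4.H91.rtc) kbc klt D4.H68.cnr D4.H35.cnk

end Pool.Agent.PFD.H36
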